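import Pool.Agent.Run7.h371.TB.Iface

/-! Estimates used by the pieces `RieszConv` and `LocalCont` of the project of helper371. -/

set_option autoImplicit false

namespace Run7.h441.TB

open Complex MeasureTheory Filter Topology Set Metric Run7.h371.TB

/-- The function `(S a n - g) / z ^ n`. -/
noncomputable def FF (a : ℕ → ℂ) (g : ℂ → ℂ) (n : ℕ) (z : ℂ) : ℂ := (z ^ n)⁻¹ * (S a n z - g z)

lemma pow_key {x : ℝ} (hx : 1 ≤ x) {m n : ℕ} (hmn : m < n) :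
    (x - 1) * x ^ m ≤ x ^ n / ((n : ℝ) - m) := by
  obtain ⟨k, rfl⟩ := Nat.exists_eq_add_of_lt hmn
  have hk : ((m + k + 1 : ℕ) : ℝ) - m = (k + 1 : ℕ) := by push_cast; ring
  rw [hk, le_div_iff₀ (by positivity)]
  have h1 : 1 + ((k + 1 : ℕ) : ℝ) * (x - 1) ≤ (1 + (x - 1)) ^ (k + 1) :=
    one_add_mul_le_pow (by linarith) (k + 1)
  have h2 : (1 + (x - 1)) ^ (k + 1) = x ^ (k + 1) := by congr 1; ring
  rw [h2] at h1
  have h3 : 0 ≤ x ^ m := by positivity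
  calc (x - 1) * x ^ m * ((k + 1 : ℕ) : ℝ) = x ^ m * (((k + 1 : ℕ) : ℝ) * (x - 1)) := by ring
    _ ≤ x ^ m * x ^ (k + 1) := by
        apply mul_le_mul_of_nonneg_left _ h3
        linarith
    _ = x ^ (m + k + 1) := by rw [← pow_add]; rfl

lemma outer_bound {a : ℕ → ℂ} {C K : ℝ} {m n : ℕ} (hC : ∀ j, ‖a j‖ ≤ C)
    (hK : ∀ j, m ≤ j → ‖a j‖ ≤ K) (hmn : m < n) {z : ℂ} (hz : 1 ≤ ‖z‖) (g : ℂ → ℂ) :
    (‖z‖ - 1) * ‖FF a g n z‖ ≤ K + (m * C + ‖g z‖) / ((n : ℝ) - m) := by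
  set x := ‖z‖ with hx
  have hx1 : 0 ≤ x - 1 := by linarith
  have hC0 : 0 ≤ C := (norm_nonneg _).trans (hC 0)
  have hK0 : 0 ≤ K := (norm_nonneg _).trans (hK m le_rfl)
  have hnm : (0 : ℝ) < (n : ℝ) - m := by
    have : (m : ℝ) < n := by exact_mod_cast hmn
    linarith
  have hxn : 0 < x ^ n := by positivity
  -- the bound of `S`
  have hS : ‖S a n z‖ ≤ ∑ j ∈ Finset.range n, ‖a j‖ * x ^ j := by
    unfold S
    refine (norm_sum_le _ _).trans (le_of_eq ?_)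
    refine Finset.sum_congr rfl (fun j _ => ?_)
    rw [norm_mul, norm_pow]
  have hsplit : ∑ j ∈ Finset.range n, ‖a j‖ * x ^ j
      = ∑ j ∈ Finset.range m, ‖a j‖ * x ^ j + ∑ j ∈ Finset.Ico m n, ‖a j‖ * x ^ j := by
    rw [Finset.sum_range_add_sum_Ico _ hmn.le]
  have h1 : ∑ j ∈ Finset.range m, ‖a j‖ * x ^ j ≤ m * C * x ^ m := by
    calc ∑ j ∈ Finset.range m, ‖a j‖ * x ^ j ≤ ∑ j ∈ Finset.range m, C * x ^ m := by
          refine Finset.sum_le_sum (fun j hj => ?_)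
          have : x ^ j ≤ x ^ m := pow_le_pow_right₀ hz (Finset.mem_range.1 hj).le
          exact mul_le_mul (hC j) this (by positivity) hC0
      _ = m * C * x ^ m := by simp; ring
  have h2 : (x - 1) * ∑ j ∈ Finset.Ico m n, ‖a j‖ * x ^ j ≤ K * x ^ n := by
    calc (x - 1) * ∑ j ∈ Finset.Ico m n, ‖a j‖ * x ^ j
        ≤ (x - 1) * ∑ j ∈ Finset.Ico m n, K * x ^ j := by
          apply mul_le_mul_of_nonneg_left _ hx1
          refine Finset.sum_le_sum (fun j hj => ?_)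
          exact mul_le_mul_of_nonneg_right (hK j (Finset.mem_Ico.1 hj).1) (by positivity)
      _ = K * ((x - 1) * ∑ j ∈ Finset.Ico m n, x ^ j) := by rw [← Finset.mul_sum]; ring
      _ ≤ K * ((x - 1) * ∑ j ∈ Finset.range n, x ^ j) := by
          apply mul_le_mul_of_nonneg_left _ hK0
          apply mul_le_mul_of_nonneg_left _ hx1
          apply Finset.sum_le_sum_of_subset_of_nonneg
          · intro j hj; exact Finset.mem_range.2 (Finset.mem_Ico.1 hj).2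
          · intro j _ _; positivity
      _ = K * (x ^ n - 1) := by rw [mul_geom_sum]
      _ ≤ K * x ^ n := by apply mul_le_mul_of_nonneg_left _ hK0; linarith
  have h3 : (x - 1) * ‖S a n z‖ ≤ K * x ^ n + m * C * ((x - 1) * x ^ m) := by
    calc (x - 1) * ‖S a n z‖ ≤ (x - 1) * (m * C * x ^ m + ∑ j ∈ Finset.Ico m n, ‖a j‖ * x ^ j) := by
          apply mul_le_mul_of_nonneg_left _ hx1
          rw [hsplit] at hS
          linarith
      _ ≤ _ := by nlinarith [h2]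
  have hk := pow_key hz hmn
  have h4 : (x - 1) * ‖g z‖ ≤ ‖g z‖ * (x ^ n / ((n : ℝ) - m)) := by
    have : (x - 1) ≤ (x - 1) * x ^ m := by
      have : (1 : ℝ) ≤ x ^ m := one_le_pow₀ hz
      nlinarith
    calc (x - 1) * ‖g z‖ = ‖g z‖ * (x - 1) := by ring
      _ ≤ ‖g z‖ * (x ^ n / ((n : ℝ) - m)) := by
        apply mul_le_mul_of_nonneg_left (this.trans hk) (norm_nonneg _)
  have h5 : (m * C : ℝ) * ((x - 1) * x ^ m) ≤ m * C * (x ^ n / ((n : ℝ) - m)) :=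
    mul_le_mul_of_nonneg_left hk (by positivity)
  have h6 : ‖FF a g n z‖ ≤ (‖S a n z‖ + ‖g z‖) / x ^ n := by
    unfold FF
    rw [norm_mul, norm_inv, norm_pow, ← hx, inv_mul_eq_div]
    gcongr
    exact norm_sub_le _ _
  calc (x - 1) * ‖FF a g n z‖ ≤ (x - 1) * ((‖S a n z‖ + ‖g z‖) / x ^ n) :=
        mul_le_mul_of_nonneg_left h6 hx1
    _ = ((x - 1) * ‖S a n z‖ + (x - 1) * ‖g z‖) / x ^ n := by ring
    _ ≤ (K * x ^ n + m * C * (x ^ n / ((n : ℝ) - m)) + ‖g z‖ * (x ^ n / ((n : ℝ) - m))) / x ^ n := by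
        gcongr
        linarith
    _ = K + (m * C + ‖g z‖) / ((n : ℝ) - m) := by field_simp; ring

lemma summable_shift {a : ℕ → ℂ} {C : ℝ} (hC : ∀ j, ‖a j‖ ≤ C) (n : ℕ) {z : ℂ} (hz : ‖z‖ < 1) :
    Summable (fun j : ℕ => a (n + j) * z ^ j) := by
  refine Summable.of_norm_bounded (g := fun j : ℕ => C * ‖z‖ ^ j)
    ((summable_geometric_of_lt_one (norm_nonneg z) hz).mul_left C) (fun j => ?_)
  rw [norm_mul, norm_pow]
  exact mul_le_mul_of_nonneg_right (hC _) (by positivity)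

lemma P_split {a : ℕ → ℂ} {C : ℝ} (hC : ∀ j, ‖a j‖ ≤ C) (n : ℕ) {z : ℂ} (hz : ‖z‖ < 1) :
    P a z = S a n z + z ^ n * T a n z := by
  have h0 : Summable (fun j : ℕ => a j * z ^ j) := by simpa using summable_shift hC 0 hz
  unfold P S T
  rw [← h0.sum_add_tsum_nat_add n, ← tsum_mul_left]
  congr 1
  refine tsum_congr (fun j => ?_)
  rw [add_comm j n, pow_add]
  ring

lemma FF_inner {a : ℕ → ℂ} {C : ℝ} (hC : ∀ j, ‖a j‖ ≤ C) (n : ℕ) {z : ℂ} (hz : ‖z‖ < 1)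
    (hz0 : z ≠ 0) {g : ℂ → ℂ} (hg : g z = P a z) : FF a g n z = - T a n z := by
  unfold FF
  rw [hg, P_split hC n hz]
  have : z ^ n ≠ 0 := pow_ne_zero _ hz0
  field_simp
  ring

lemma T_bound {a : ℕ → ℂ} {K : ℝ} {n : ℕ} (hK : ∀ j, n ≤ j → ‖a j‖ ≤ K) {z : ℂ} (hz : ‖z‖ < 1) :
    (1 - ‖z‖) * ‖T a n z‖ ≤ K := by
  have h1 : 0 < 1 - ‖z‖ := by linarith
  have h2 : ‖T a n z‖ ≤ K * (1 - ‖z‖)⁻¹ := by
    unfold T
    refine tsum_of_norm_bounded ((hasSum_geometric_of_lt_one (norm_nonneg z) hz).mul_left K)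
      (fun j => ?_)
    rw [norm_mul, norm_pow]
    exact mul_le_mul_of_nonneg_right (hK _ (Nat.le_add_right _ _)) (by positivity)
  calc (1 - ‖z‖) * ‖T a n z‖ ≤ (1 - ‖z‖) * (K * (1 - ‖z‖)⁻¹) :=
        mul_le_mul_of_nonneg_left h2 h1.le
    _ = K := by field_simp

/-- The bound of `FF` on the closed ball. -/
lemma FF_bound {a : ℕ → ℂ} {C K G : ℝ} {m n : ℕ} (hC : ∀ j, ‖a j‖ ≤ C)
    (hK : ∀ j, m ≤ j → ‖a j‖ ≤ K) (hmn : m < n) {z : ℂ} (hz0 : z ≠ 0) {g : ℂ → ℂ}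
    (hg : ‖z‖ < 1 → g z = P a z) (hG : ‖g z‖ ≤ G) :
    |‖z‖ - 1| * ‖FF a g n z‖ ≤ K + (m * C + G) / ((n : ℝ) - m) := by
  have hnm : (0 : ℝ) < (n : ℝ) - m := by
    have : (m : ℝ) < n := by exact_mod_cast hmn
    linarith
  have hC0 : 0 ≤ C := (norm_nonneg _).trans (hC 0)
  have hG0 : 0 ≤ G := (norm_nonneg _).trans hG
  rcases lt_or_ge ‖z‖ 1 with h | h
  · rw [abs_of_neg (by linarith), FF_inner hC n h hz0 (hg h), norm_neg, neg_sub]
    have := T_bound (fun j hj => hK j (hmn.le.trans hj)) h (n := n)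
    have h2 : 0 ≤ (m * C + G) / ((n : ℝ) - m) := by positivity
    linarith
  · rw [abs_of_nonneg (by linarith)]
    refine (outer_bound hC hK hmn h g).trans ?_
    gcongr

lemma ne_zero_of_ball {ζ z : ℂ} (hζ : ‖ζ‖ = 1) (hz : z ∈ closedBall ζ (1 / 2)) : z ≠ 0 := by
  rintro rfl
  rw [mem_closedBall, dist_zero_left, hζ] at hz
  norm_num at hz

/-- Common data: a radius and a bound of `g`. -/
lemma setup {a : ℕ → ℂ} {ζ : ℂ} {r : ℝ} {g : ℂ → ℂ} (hg : Cont a ζ r g) :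
    ∃ (ρ G : ℝ), 0 < ρ ∧ ρ ≤ 1 / 2 ∧ closedBall ζ ρ ⊆ ball ζ r ∧ (∀ z ∈ closedBall ζ ρ, ‖g z‖ ≤ G) ∧
      ∀ n, DifferentiableOn ℂ (FF a g n) (ball ζ r ∩ {z | z ≠ 0}) := by
  obtain ⟨hr, hd, -⟩ := hg
  have hsub : closedBall ζ (min (1 / 2) (r / 2)) ⊆ ball ζ r := by
    apply closedBall_subset_ball
    exact lt_of_le_of_lt (min_le_right _ _) (by linarith)
  have hcont : ContinuousOn g (closedBall ζ (min (1 / 2) (r / 2))) := hd.continuousOn.mono hsub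
  obtain ⟨G, hG⟩ := (isCompact_closedBall ζ (min (1 / 2) (r / 2))).exists_bound_of_continuousOn hcont
  refine ⟨min (1 / 2) (r / 2), G, lt_min (by norm_num) (by linarith), min_le_left _ _, hsub, hG, ?_⟩
  intro n
  unfold FF S
  apply DifferentiableOn.mul
  · apply DifferentiableOn.inv
    · exact (differentiable_pow n).differentiableOn
    · intro z hz
      exact pow_ne_zero _ hz.2
  · apply DifferentiableOn.sub
    · apply Differentiable.differentiableOn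
      fun_prop
    · exact hd.mono inter_subset_left

end Run7.h441.TB
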