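import Pool.Agent.Run7.h441.TB.Aux1

/-! Piece `LocalCont` of the project of helper371: local continuation of the limit. -/

set_option autoImplicit false

namespace Run7.h441.TB

open Complex MeasureTheory Filter Topology Set Metric Run7.h371.TB

lemma countable_bad {ζ : ℂ} (hζ : ‖ζ‖ = 1) (R : ℝ) :
    {w : ℂ | ‖w‖ = 1 ∧ ‖w - ζ‖ = R}.Countable := by
  set c : ℂ := ((1 - R ^ 2 / 2 : ℝ) : ℂ) with hc
  have key : ∀ w : ℂ, ‖w‖ = 1 → ‖w - ζ‖ = R → (w - c * ζ) ^ 2 = (c ^ 2 - 1) * ζ ^ 2 := by
    intro w hw hwR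
    have h1 : w * (starRingEnd ℂ) w = 1 := by
      rw [Complex.mul_conj, Complex.normSq_eq_norm_sq, hw]; simp
    have h2 : ζ * (starRingEnd ℂ) ζ = 1 := by
      rw [Complex.mul_conj, Complex.normSq_eq_norm_sq, hζ]; simp
    have h3 : (w - ζ) * ((starRingEnd ℂ) w - (starRingEnd ℂ) ζ) = (R : ℂ) ^ 2 := by
      rw [← map_sub, Complex.mul_conj, Complex.normSq_eq_norm_sq, hwR]; simp
    have h4 : (2 : ℂ) * c = 2 - (R : ℂ) ^ 2 := by rw [hc]; push_cast; ring
    have h5 : w * (starRingEnd ℂ) ζ + (starRingEnd ℂ) w * ζ = 2 * c := by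
      rw [h4, ← h3]
      linear_combination h1 + h2
    have h6 : w ^ 2 + ζ ^ 2 = 2 * c * w * ζ := by
      linear_combination (w * ζ) * h5 - w ^ 2 * h2 - ζ ^ 2 * h1
    linear_combination h6
  rcases Set.eq_empty_or_nonempty {w : ℂ | ‖w‖ = 1 ∧ ‖w - ζ‖ = R} with h | ⟨w1, h1⟩
  · rw [h]; exact countable_empty
  · apply Set.Countable.mono _ (((Set.finite_singleton (2 * c * ζ - w1)).insert w1).countable)
    intro w hw
    have e := (key w hw.1 hw.2).trans (key w1 h1.1 h1.2).symm
    rcases sq_eq_sq_iff_eq_or_eq_neg.1 e with h | h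
    · left
      linear_combination h
    · right
      show w = 2 * c * ζ - w1
      linear_combination h

theorem t_LocalCont : LocalCont := by
  intro hRT hH a C hC φ b hL ζ r g hζ hc
  obtain ⟨ρ, G, hρ0, hρ, hsub, hG, hd⟩ := setup hc
  have hC0 : 0 ≤ C := (norm_nonneg _).trans (hC 0)
  have hG0 : 0 ≤ G := (norm_nonneg _).trans (hG ζ (mem_closedBall_self hρ0.le))
  have hsub2 : closedBall ζ ρ ⊆ ball ζ r ∩ {z | z ≠ 0} := by
    intro z hz
    exact ⟨hsub hz, ne_zero_of_ball hζ (closedBall_subset_closedBall hρ hz)⟩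
  set F : ℕ → ℂ → ℂ := fun k => FF a g (φ (k + 1)) with hF
  have hφ1 : ∀ k, 0 < φ (k + 1) := fun k => lt_of_lt_of_le (Nat.succ_pos k) (hL.1.id_le (k + 1))
  set K' : ℝ := 6 * (C + G) / ρ with hK'
  have hbd : ∀ k, ∀ z ∈ closedBall ζ (ρ / 4), ‖F k z‖ ≤ K' := by
    intro k
    refine hRT ζ ρ (C + G) (F k) hζ hρ0 (by linarith) ((hd _).diffContOnCl_ball hsub2) ?_
    intro z hz
    have hz' : z ∈ closedBall ζ ρ := sphere_subset_closedBall hz
    have := FF_bound (g := g) (G := G) hC (fun j _ => hC j) (hφ1 k) (hsub2 hz').2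
        (fun h => hc.2.2 z (hsub hz') h) (hG z hz')
    refine this.trans ?_
    have h1 : (1 : ℝ) ≤ (φ (k + 1) : ℝ) - (0 : ℕ) := by
      have : (1 : ℝ) ≤ (φ (k + 1) : ℝ) := by exact_mod_cast hφ1 k
      simpa using this
    have h2 : (((0 : ℕ) : ℝ) * C + G) / ((φ (k + 1) : ℝ) - (0 : ℕ)) ≤ G := by
      rw [div_le_iff₀ (by linarith)]
      push_cast
      push_cast at h1
      nlinarith
    linarith
  obtain ⟨hH1, hH2⟩ := hH a C hC φ b hL
  set L : ℂ → ℂ := fun z => if ‖z‖ < 1 then - R0 b z else if 1 < ‖z‖ then R1 b z else 0 with hLdef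
  have hlim : ∀ z ∈ closedBall ζ ρ, ‖z‖ ≠ 1 → Tendsto (fun k => F k z) atTop (𝓝 (L z)) := by
    intro z hz hz1
    have hz0 := (hsub2 hz).2
    rcases lt_or_gt_of_ne hz1 with h | h
    · have e1 : L z = - R0 b z := by simp [hLdef, h]
      have e2 : (fun k => F k z) = fun k => - T a (φ (k + 1)) z := by
        funext k
        exact FF_inner hC _ h hz0 (hc.2.2 z (hsub hz) h)
      rw [e1, e2]
      exact ((hH1 z h).comp (tendsto_add_atTop_nat 1)).neg
    · have e1 : L z = R1 b z := by simp [hLdef, h, not_lt.2 h.le]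
      have e2 : (fun k => F k z) = fun k => Q a (φ (k + 1)) z - (z ^ (φ (k + 1)))⁻¹ * g z := by
        funext k
        simp only [hF, FF, Q]
        ring
      rw [e1, e2]
      have h3 : Tendsto (fun n : ℕ => (z ^ n)⁻¹) atTop (𝓝 0) := by
        have : Tendsto (fun n : ℕ => (z⁻¹) ^ n) atTop (𝓝 0) := by
          apply tendsto_pow_atTop_nhds_zero_of_norm_lt_one
          rw [norm_inv]
          exact inv_lt_one_of_one_lt₀ h
        simpa [inv_pow] using this
      have h4 : Tendsto (fun k : ℕ => φ (k + 1)) atTop atTop :=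
        hL.1.tendsto_atTop.comp (tendsto_add_atTop_nat 1)
      have h5 := ((h3.comp h4).mul_const (g z))
      have h6 := ((hH2 z h).comp (tendsto_add_atTop_nat 1)).sub h5
      simpa using h6
  set R : ℝ := ρ / 4 with hRdef
  have hRpos : 0 < R := by positivity
  have hRρ : closedBall ζ R ⊆ closedBall ζ ρ := closedBall_subset_closedBall (by linarith)
  have hmem : ∀ θ : ℝ, circleMap ζ R θ ∈ closedBall ζ R := fun θ =>
    circleMap_mem_closedBall ζ hRpos.le θ
  have hae : ∀ᵐ θ : ℝ, ‖circleMap ζ R θ‖ ≠ 1 := by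
    have h1 := ((countable_bad hζ R).preimage_circleMap ζ hRpos.ne').ae_notMem (volume : Measure ℝ)
    filter_upwards [h1] with θ hθ h2
    apply hθ
    refine ⟨h2, ?_⟩
    rw [circleMap_sub_center, norm_circleMap_zero, abs_of_pos hRpos]
  have hFc : ∀ k, ContinuousOn (F k) (closedBall ζ R) := fun k =>
    (hd (φ (k + 1))).continuousOn.mono (hRρ.trans hsub2)
  have hcontF : ∀ k, Continuous (fun θ : ℝ => F k (circleMap ζ R θ)) := fun k =>
    (hFc k).comp_continuous (continuous_circleMap ζ R) hmem
  have hlimae : ∀ᵐ θ : ℝ, Tendsto (fun k => F k (circleMap ζ R θ)) atTop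
      (𝓝 (L (circleMap ζ R θ))) := by
    filter_upwards [hae] with θ hθ
    exact hlim _ (hRρ (hmem θ)) hθ
  have hmeasL : AEStronglyMeasurable (fun θ : ℝ => L (circleMap ζ R θ)) volume :=
    aestronglyMeasurable_of_tendsto_ae atTop (fun k => (hcontF k).aestronglyMeasurable) hlimae
  have hbdL : ∀ᵐ θ : ℝ, ‖L (circleMap ζ R θ)‖ ≤ K' := by
    filter_upwards [hlimae] with θ hθ
    exact le_of_tendsto hθ.norm (Eventually.of_forall (fun k => hbd k _ (hmem θ)))
  have hInt : CircleIntegrable L ζ R := by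
    unfold CircleIntegrable
    rw [intervalIntegrable_iff]
    exact IntegrableOn.of_bound ((measure_mono uIoc_subset_uIcc).trans_lt isCompact_uIcc.measure_lt_top)
      hmeasL.restrict K' (ae_restrict_of_ae hbdL)
  obtain ⟨R', hR'⟩ : ∃ R' : NNReal, (R' : ℝ) = R := ⟨⟨R, hRpos.le⟩, rfl⟩
  have hps := hasFPowerSeriesOn_cauchy_integral (R := R') (f := L) (c := ζ) (by rw [hR']; exact hInt)
    (by rw [← NNReal.coe_pos, hR']; exact hRpos)
  refine ⟨R, hRpos, fun w => (2 * Real.pi * I : ℂ)⁻¹ • ∮ z in C(ζ, R), (z - w)⁻¹ • L z, ?_, ?_⟩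
  · have h1 := hps.differentiableOn
    rw [Metric.eball_coe, hR'] at h1
    exact h1
  · have hmain : ∀ w ∈ ball ζ R, ‖w‖ ≠ 1 →
        ((2 * Real.pi * I : ℂ)⁻¹ • ∮ z in C(ζ, R), (z - w)⁻¹ • L z) = L w := by
      intro w hw hw1
      have t1 := hlim w (hRρ (ball_subset_closedBall hw)) hw1
      have t2 : ∀ k, ((2 * Real.pi * I : ℂ)⁻¹ • ∮ z in C(ζ, R), (z - w)⁻¹ • F k z) = F k w := by
        intro k
        refine two_pi_I_inv_smul_circleIntegral_sub_inv_smul_of_differentiable_on_off_countable
          countable_empty hw (hFc k) ?_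
        intro x hx
        have hx' : x ∈ ball ζ ρ := ball_subset_ball (by linarith) hx.1
        refine ((hd (φ (k + 1))).mono (ball_subset_closedBall.trans hsub2)).differentiableAt
          (isOpen_ball.mem_nhds hx')
      have hne : ∀ θ : ℝ, circleMap ζ R θ - w ≠ 0 := by
        intro θ h
        have : circleMap ζ R θ = w := sub_eq_zero.1 h
        exact circleMap_ne_mem_ball hw θ this
      have t3 : Tendsto (fun k => ∮ z in C(ζ, R), (z - w)⁻¹ • F k z) atTop
          (𝓝 (∮ z in C(ζ, R), (z - w)⁻¹ • L z)) := by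
        unfold circleIntegral
        have hcb : Continuous (fun θ : ℝ => ‖deriv (circleMap ζ R) θ‖ * (‖(circleMap ζ R θ - w)⁻¹‖ * K')) := by
          apply Continuous.mul
          · have : deriv (circleMap ζ R) = fun θ => circleMap 0 R θ * I := by
              funext θ; simp
            rw [this]
            fun_prop
          · apply Continuous.mul _ continuous_const
            apply Continuous.norm
            apply Continuous.inv₀ _ hne
            fun_prop
        refine intervalIntegral.tendsto_integral_filter_of_dominated_convergence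
          (fun θ : ℝ => ‖deriv (circleMap ζ R) θ‖ * (‖(circleMap ζ R θ - w)⁻¹‖ * K')) ?_ ?_ ?_ ?_
        · refine Eventually.of_forall (fun k => ?_)
          apply Continuous.aestronglyMeasurable
          show Continuous (fun θ : ℝ => deriv (circleMap ζ R) θ *
            ((circleMap ζ R θ - w)⁻¹ * F k (circleMap ζ R θ)))
          apply Continuous.mul
          · have : deriv (circleMap ζ R) = fun θ => circleMap 0 R θ * I := by
              funext θ; simp
            rw [this]
            fun_prop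
          · apply Continuous.mul _ (hcontF k)
            apply Continuous.inv₀ _ hne
            fun_prop
        · refine Eventually.of_forall (fun k => Eventually.of_forall (fun θ _ => ?_))
          rw [norm_smul, norm_smul]
          gcongr
          exact hbd k _ (hmem θ)
        · exact hcb.intervalIntegrable _ _
        · filter_upwards [hlimae] with θ hθ _
          exact (hθ.const_smul _).const_smul _
      have t4 := t3.const_smul ((2 * Real.pi * I : ℂ)⁻¹)
      simp only [t2] at t4
      exact tendsto_nhds_unique t4 t1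
    constructor
    · intro z hz h
      have := hmain z hz h.ne
      simp only [this]
      simp [hLdef, h]
    · intro z hz h
      have := hmain z hz h.ne'
      simp only [this]
      simp [hLdef, h, not_lt.2 h.le]

end Run7.h441.TB
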