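import Pool.Agent.Run7.h441.TB.Aux1

/-! Piece `RieszConv` of the project of helper371: the Fatou-Riesz theorem. -/

set_option autoImplicit false

namespace Run7.h441.TB

open Complex MeasureTheory Filter Topology Set Metric Run7.h371.TB

lemma norm_FF_self {a : ℕ → ℂ} {ζ : ℂ} (hζ : ‖ζ‖ = 1) (g : ℂ → ℂ) (n : ℕ) :
    ‖FF a g n ζ‖ = ‖S a n ζ - g ζ‖ := by
  unfold FF
  rw [norm_mul, norm_inv, norm_pow, hζ]
  simp

theorem t_RieszConv : RieszConv := by
  intro hR a ha ζ r g hζ hc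
  obtain ⟨C, hC'⟩ := ha.norm.bddAbove_range
  have hC : ∀ j, ‖a j‖ ≤ C := fun j => hC' ⟨j, rfl⟩
  have hC0 : 0 ≤ C := (norm_nonneg _).trans (hC 0)
  obtain ⟨ρ, G, hρ0, hρ, hsub, hG, hd⟩ := setup hc
  have hG0 : 0 ≤ G := (norm_nonneg _).trans (hG ζ (mem_closedBall_self hρ0.le))
  rw [Metric.tendsto_atTop]
  intro ε hε
  have hε1 : 0 < ε * ρ / 24 := by positivity
  obtain ⟨m, hm⟩ := (Metric.tendsto_atTop.1 ha) (ε * ρ / 24) hε1
  have hK : ∀ j, m ≤ j → ‖a j‖ ≤ ε * ρ / 24 := by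
    intro j hj
    have := hm j hj
    rw [dist_zero_right] at this
    exact this.le
  obtain ⟨k, hk⟩ := exists_nat_gt ((m * C + G) / (ε * ρ / 24))
  refine ⟨m + k + 1, fun n hn => ?_⟩
  have hmn : m < n := by omega
  have hnm : (k : ℝ) + 1 ≤ (n : ℝ) - m := by
    have : ((m + k + 1 : ℕ) : ℝ) ≤ n := by exact_mod_cast hn
    push_cast at this
    linarith
  have hnm0 : (0 : ℝ) < (n : ℝ) - m := by
    have : (0 : ℝ) ≤ k := by positivity
    linarith
  have h1 : (m * C + G) / ((n : ℝ) - m) ≤ ε * ρ / 24 := by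
    rw [div_le_iff₀ hnm0]
    rw [div_lt_iff₀ hε1] at hk
    have : (k : ℝ) * (ε * ρ / 24) ≤ ε * ρ / 24 * ((n : ℝ) - m) := by
      rw [mul_comm]
      exact mul_le_mul_of_nonneg_left (by linarith) hε1.le
    linarith
  have hsub2 : closedBall ζ ρ ⊆ ball ζ r ∩ {z | z ≠ 0} := by
    intro z hz
    exact ⟨hsub hz, ne_zero_of_ball hζ (closedBall_subset_closedBall hρ hz)⟩
  have h2 := hR ζ ρ (ε * ρ / 12) (FF a g n) hζ hρ0 (by linarith) ((hd n).diffContOnCl_ball hsub2)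
    (by
      intro z hz
      have hz' : z ∈ closedBall ζ ρ := sphere_subset_closedBall hz
      have := FF_bound (g := g) (G := G) hC hK hmn (hsub2 hz').2
        (fun h => hc.2.2 z (hsub hz') h) (hG z hz')
      refine this.trans ?_
      linarith) ζ (mem_closedBall_self (by positivity))
  rw [norm_FF_self hζ] at h2
  rw [dist_eq_norm]
  calc ‖S a n ζ - g ζ‖ ≤ 6 * (ε * ρ / 12) / ρ := h2
    _ = ε / 2 := by field_simp; ring
    _ < ε := by linarith

end Run7.h441.TB
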